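import Pool.Agent.Lib.MP_434b1a_gt.ContHom

/-!
Everywhere non-Hausdorff manifolds and homogeneous non-Hausdorff manifolds, of any dimension, which
are homogeneous continuously on a comeager set of a chart: the open Hausdorff cover number is at
least the continuum and equals the Euclidean cover number.
-/

namespace Pool.Agent.Results.MP_434b1a_gt.ContinuouslyHomogeneous

open Cardinal Pool.Agent.Lib.MP_434b1a_gt Pool.Agent.Lib.MP_434b1a_gt.ContHom

/-- Let `M` be a manifold of dimension `n` which is everywhere non-Hausdorff, or homogeneous and not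
Hausdorff. Suppose that there are a point `p`, an open embedding `φ : ℝ^n → M`, a comeager set
`C ⊆ ℝ^n` and self-homeomorphisms `g v` of `M` with `g v p = φ v` for `v ∈ C`, such that
`(g v)⁻¹ (φ w)` is continuous in `(v, w) ∈ C × C`. Then `𝔠 ≤ 𝓞𝓗(M)` and `𝓔(M) = 𝓞𝓗(M)`. -/
theorem result (n : ℕ) (M : Type) [TopologicalSpace M] (hm : TopManifold n M)
    (hM : EverywhereNonHausdorff M ∨ (¬ T2Space M ∧ ∀ x y : M, ∃ h : M ≃ₜ M, h x = y))
    (hc : ContinuousInChart n M) :
    𝔠 ≤ openHausNumber M ∧ euclNumber n M = openHausNumber M :=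
  main hm hc hM

end Pool.Agent.Results.MP_434b1a_gt.ContinuouslyHomogeneous
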