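import Pool.Agent.Lib.MP_434b1a_gt.DimOne

/-!
Homogeneous non-Hausdorff manifolds of dimension one: the open Hausdorff cover number is at least
the continuum and equals the Euclidean cover number.
-/

namespace Pool.Agent.Results.MP_434b1a_gt.DimensionOne

open Cardinal Pool.Agent.Lib.MP_434b1a_gt

/-- Every homogeneous non-Hausdorff manifold `M` of dimension one satisfies `𝔠 ≤ 𝓞𝓗(M)` and
`𝓔(M) = 𝓞𝓗(M)`. -/
theorem result (M : Type) [TopologicalSpace M] (hm : TopManifold 1 M) (hNH : ¬ T2Space M)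
    (hhom : ∀ x y : M, ∃ h : M ≃ₜ M, h x = y) :
    𝔠 ≤ openHausNumber M ∧ euclNumber 1 M = openHausNumber M :=
  DimOne.main hm hNH hhom

end Pool.Agent.Results.MP_434b1a_gt.DimensionOne
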