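import Pool.Agent.Lib.MP_434b1a_gt.Construct
import Pool.Agent.Lib.MP_434b1a_gt.Baire
import Pool.Agent.Lib.MP_434b1a_gt.Size

/-!
An everywhere non-Hausdorff manifold whose Euclidean cover number exceeds its open Hausdorff
cover number exists if and only if `cov(𝓑) < 𝔠`.
-/

namespace Pool.Agent.Results.MP_434b1a_gt.EnhIffCovB

open Cardinal Pool.Agent.Lib.MP_434b1a_gt

/-- There is an everywhere non-Hausdorff manifold `M` with `𝓔(M) > 𝓞𝓗(M)` if and only if
`cov(𝓑) < 𝔠`. -/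
theorem result :
    (∃ (n : ℕ) (M : Type) (_ : TopologicalSpace M), TopManifold n M ∧
      EverywhereNonHausdorff M ∧ openHausNumber M < euclNumber n M) ↔ covB < 𝔠 := by
  constructor
  · rintro ⟨n, M, _, hm, hM, hlt⟩
    by_contra hcon
    push Not at hcon
    obtain ⟨𝒰, hcard, h𝒰, hcov⟩ := Size.exists_haus_cover hm
    have h1 : 𝔠 ≤ #𝒰 * ℵ₀ := hcon.trans (Baire.covB_le hm hM 𝒰 h𝒰 hcov)
    have h2 : 𝔠 ≤ #𝒰 := by
      by_contra h3
      push Not at h3
      exact absurd h1 (not_le.mpr (mul_lt_of_lt aleph0_le_continuum h3 aleph0_lt_continuum))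
    have h3 : #M ≤ max ℵ₀ (#𝒰 * 𝔠) := Size.mk_le hm 𝒰 h𝒰 hcov
    have h4 : #𝒰 * 𝔠 ≤ #𝒰 :=
      (mul_le_mul' le_rfl h2).trans (mul_eq_self (aleph0_le_continuum.trans h2)).le
    have h5 : #M ≤ #𝒰 := h3.trans (max_le (aleph0_le_continuum.trans h2) h4)
    rw [← hcard] at hlt
    exact absurd ((Size.euclNumber_le hm).trans h5) (not_le.mpr hlt)
  · intro hlt
    have hne : {κ | ∃ 𝒩 : Set (Set ℝ), #𝒩 = κ ∧ (∀ N ∈ 𝒩, IsNowhereDense N) ∧
        ⋃₀ 𝒩 = Set.univ}.Nonempty := by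
      refine ⟨_, Set.range (fun x : ℝ => ({x} : Set ℝ)), rfl, ?_, ?_⟩
      · rintro _ ⟨x, rfl⟩
        rw [IsNowhereDense, closure_singleton, interior_singleton]
      · ext x
        simp only [Set.mem_univ, iff_true]
        exact ⟨_, ⟨x, rfl⟩, rfl⟩
    obtain ⟨𝒩, hcard, hnd, hcov⟩ := csInf_mem hne
    have hcard' : #𝒩 = covB := hcard
    let N : 𝒩 → Set ℝ := fun A => A
    have hN : ∀ i, IsNowhereDense (N i) := fun i => hnd i i.2
    have hcovN : ∀ y : ℝ, ∃ i, y ∈ N i := by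
      intro y
      have : y ∈ ⋃₀ 𝒩 := by rw [hcov]; trivial
      obtain ⟨A, hA, hy⟩ := this
      exact ⟨⟨A, hA⟩, hy⟩
    refine ⟨2, Construct.M N, inferInstance, Construct.topManifold N hN,
      Construct.enh N hN hcovN, ?_⟩
    have h1 : openHausNumber (Construct.M N) < 𝔠 := by
      refine (Construct.openHausNumber_le N).trans_lt ?_
      rw [mk_option, hcard']
      exact add_lt_of_lt aleph0_le_continuum hlt (one_lt_aleph0.trans aleph0_lt_continuum)
    exact h1.trans_le (Construct.continuum_le_euclNumber N)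

end Pool.Agent.Results.MP_434b1a_gt.EnhIffCovB
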