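import Pool.Agent.Lib.MP_434b1a_gt.Homog

/-!
Homogeneous non-Hausdorff manifolds: the Euclidean cover number can exceed the open Hausdorff cover
number if and only if the open Hausdorff cover number can be smaller than the continuum.
-/

namespace Pool.Agent.Results.MP_434b1a_gt.HomogeneousCriterion

open Cardinal Pool.Agent.Lib.MP_434b1a_gt

/-- `M` is a homogeneous non-Hausdorff manifold of dimension `n`. -/
def IsHNH (n : ℕ) (M : Type) [TopologicalSpace M] : Prop :=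
  TopManifold n M ∧ ¬ T2Space M ∧ ∀ x y : M, ∃ h : M ≃ₜ M, h x = y

/-- There is a homogeneous non-Hausdorff manifold `M` with `𝓔(M) > 𝓞𝓗(M)` if and only if there is a
homogeneous non-Hausdorff manifold `M` with `𝓞𝓗(M) < 𝔠`. -/
theorem result :
    (∃ (n : ℕ) (M : Type) (_ : TopologicalSpace M), IsHNH n M ∧
      openHausNumber M < euclNumber n M) ↔
    (∃ (n : ℕ) (M : Type) (_ : TopologicalSpace M), IsHNH n M ∧ openHausNumber M < 𝔠) := by
  have h := Homog.main
  constructor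
  · rintro ⟨n, M, i, ⟨h1, h2, h3⟩, h4⟩
    obtain ⟨n', M', i', g1, g2, g3, g4⟩ := h.1 ⟨n, M, i, h1, h2, h3, h4⟩
    exact ⟨n', M', i', ⟨g1, g2, g3⟩, g4⟩
  · rintro ⟨n, M, i, ⟨h1, h2, h3⟩, h4⟩
    obtain ⟨n', M', i', g1, g2, g3, g4⟩ := h.2 ⟨n, M, i, h1, h2, h3, h4⟩
    exact ⟨n', M', i', ⟨g1, g2, g3⟩, g4⟩

end Pool.Agent.Results.MP_434b1a_gt.HomogeneousCriterion
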